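import Pool.Agent.H.MP_f50dde_an.C

set_option autoImplicit false

namespace Pool.Agent.Results.MP_f50dde_an.Yes

theorem result {H : Type*} [NormedAddCommGroup H] [InnerProductSpace ℂ H] [CompleteSpace H]
    (T : H →L[ℂ] H) (hT : T ∈ unitary (H →L[ℂ] H)) (hσ : (spectrum ℂ T).Infinite)
    (hp : ∀ c : ℂ, ¬ Module.End.HasEigenvalue (T : H →ₗ[ℂ] H) c) (r : ℝ) (hr : 1 < r)
    {X : Type*} [NormedAddCommGroup X] [NormedSpace ℂ X] [CompleteSpace X]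
    (S : X →L[ℂ] X) (J : H ≃L[ℂ] X) (hJ : ∀ x, J.symm (S (J x)) = (r : ℂ) • T x) :
    ∃ (x : X) (f : X →L[ℂ] ℂ), ‖x‖ = 1 ∧ ‖f‖ = 1 ∧ f x = 1 ∧
      DenseRange fun n : ℕ => f ((S ^ n) x) :=
  Pool.Agent.H.MP_f50dde_an.main hT hσ hp hr hJ

end Pool.Agent.Results.MP_f50dde_an.Yes
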